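import Mathlib
import Pool.Agent.H.MP_325c15_al.Main

set_option autoImplicit false

namespace Pool.Agent.Results.MP_325c15_al.AllQuotients

/-- Every numerical semigroup is a quotient of a complete intersection numerical semigroup. -/
theorem result (T : AddSubmonoid ℕ) (hT : (T : Set ℕ)ᶜ.Finite) :
    ∃ (S : AddSubmonoid ℕ) (d : ℕ), (S : Set ℕ)ᶜ.Finite ∧ 1 ≤ d ∧ (∀ x, x ∈ T ↔ d * x ∈ S) ∧
      ∃ (e : ℕ) (n : Fin e → ℕ), Function.Injective n ∧
        Minimal (fun A : Set ℕ => AddSubmonoid.closure A = S) (Set.range n) ∧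
        IsLeast {k : ℕ | ∃ σ : Finset ((Fin e → ℕ) × (Fin e → ℕ)), σ.card = k ∧
          ∀ a b : Fin e → ℕ, addConGen (fun u v => (u, v) ∈ σ) a b ↔
            ∑ i, a i * n i = ∑ i, b i * n i} (e - 1) ∧ 1 ≤ e := by
  classical
  obtain ⟨C, hC⟩ := hT.bddAbove
  obtain ⟨S, ⟨⟨D, hD⟩, e, n, hinj, hgen, hirr, σ, hσ⟩, d, hd, hST⟩ :=
    Pool.Agent.H.MP_325c15_al.main T (C + 1) fun x hx => by
      by_contra h
      have := hC h
      omega
  have hn : ∀ i, n i ∈ S := fun i => (hgen _).2 ⟨Pi.single i 1, by simp [Pi.single_apply]⟩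
  have hcl : AddSubmonoid.closure (Set.range n) = S := by
    apply le_antisymm
    · rw [AddSubmonoid.closure_le]
      rintro _ ⟨i, rfl⟩
      exact hn i
    · intro x hx
      obtain ⟨a, rfl⟩ := (hgen x).1 hx
      exact AddSubmonoid.sum_mem _ fun i _ =>
        AddSubmonoid.nsmul_mem _ (AddSubmonoid.subset_closure (Set.mem_range_self i)) (a i)
  have hlow : ∀ τ : Finset ((Fin (e + 1) → ℕ) × (Fin (e + 1) → ℕ)),
      (∀ a b, addConGen (fun u v => (u, v) ∈ τ) a b ↔ ∑ i, a i * n i = ∑ i, b i * n i) →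
      e ≤ τ.card := fun τ h =>
    Pool.Agent.H.MP_325c15_al.lower n (hirr 0).1 τ fun a b h' => (h a b).2 h'
  refine ⟨S, d, (Set.finite_lt_nat D).subset fun x hx => ?_, hd, hST, e + 1, n, hinj,
    ⟨hcl, fun A hA hA' => ?_⟩, ⟨?_, ?_⟩, by omega⟩
  · by_contra h
    exact hx (hD x (by simpa using h))
  · rintro _ ⟨i, rfl⟩
    by_contra h
    have key : ∀ x ∈ AddSubmonoid.closure A, x ≠ n i := by
      intro x hx
      induction hx using AddSubmonoid.closure_induction with
      | mem x hx => exact fun h' => h (h' ▸ hx)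
      | zero => exact (hirr i).1.symm
      | add x y hx hy ih ih' =>
        intro h'
        rcases (hirr i).2 x (hA ▸ hx) y (hA ▸ hy) h' with rfl | rfl
        · exact ih' (by simpa using h')
        · exact ih (by simpa using h')
    exact key _ (hA ▸ hn i) rfl
  · have h : ∀ a b, addConGen (fun u v => (u, v) ∈ Finset.univ.image σ) a b ↔
        ∑ i, a i * n i = ∑ i, b i * n i := by
      intro a b
      rw [← hσ]
      simp
    refine ⟨Finset.univ.image σ, le_antisymm ?_ (hlow _ h), h⟩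
    simpa using Finset.card_image_le (s := Finset.univ) (f := σ)
  · rintro _ ⟨τ, rfl, h⟩
    exact hlow τ h

end Pool.Agent.Results.MP_325c15_al.AllQuotients
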